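import Pool.Agent.Q267.Seven.Sums
import Pool.Agent.Q267.Seven.Inert
import Pool.Agent.Q267.Seven.Root

/-!
# MP_552068_nt

`p^2` divides `∑_{k<p} (-1)^k a(k)` for every prime `p ≡ 3, 5, 6 (mod 7)`, where
`a(n) = ∑_k (-16)^k C(n,k)^2 C(n-k,k)^2`.
-/

namespace Pool.Agent.Results.MP_552068_nt.NonResidue

open Finset

/-- `a(n) = ∑_{0 ≤ k ≤ n} (-16)^k C(n,k)^2 C(n-k,k)^2`. -/
def a (n : ℕ) : ℤ :=
  ∑ k ∈ range (n + 1), (-16 : ℤ) ^ k * (n.choose k : ℤ) ^ 2 * ((n - k).choose k : ℤ) ^ 2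

/-- `S(p) = ∑_{k=0}^{p-1} (-1)^k a(k)`. -/
def S (p : ℕ) : ℤ := ∑ k ∈ range p, (-1 : ℤ) ^ k * a k

/-- **MP_552068_nt, Q1.** If `p` is a prime with `p ≡ 3, 5, 6 (mod 7)` then `p^2 ∣ S(p)`. -/
theorem result (p : ℕ) (hp : p.Prime) (h7 : p % 7 = 3 ∨ p % 7 = 5 ∨ p % 7 = 6) :
    (p : ℤ) ^ 2 ∣ S p := by
  have hpf : Fact p.Prime := ⟨hp⟩
  have hp2 : p ≠ 2 := by rintro rfl; omega
  have hp7 : p ≠ 7 := by rintro rfl; omega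
  obtain ⟨m, hm⟩ : ∃ m, p = 2 * m + 1 := hp.odd_of_ne_two hp2
  have key := Pool.Agent.Q267.Seven.sum_a_mod p m hp hm
  have hin := Pool.Agent.Q267.Seven.inert_sum p m hm hp2 hp7
    (Pool.Agent.Q267.Seven.no_root p hp2 hp7 (Pool.Agent.Q267.Seven.jac_of_mod p h7))
  have hS : S p = ∑ n ∈ range p, (-1 : ℤ) ^ n * Pool.Agent.Q267.Seven.a n := rfl
  rw [← hS] at key
  have := dvd_add key hin
  rwa [sub_add_cancel] at this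

end Pool.Agent.Results.MP_552068_nt.NonResidue
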